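import Pool.Agent.Helper92.UQ.Goals

/-!
# MP_a41896_nt, project T3, packet TRS: the formal solution is transcendental
-/

set_option autoImplicit false

namespace Pool.Agent.Helper16.UQ.TRS

open Pool.Agent.Helper92.UQ

theorem t : Pool.Agent.Helper92.UQ.TRS := by
  intro Ω _ _ _ B p s X Y hS hne q hq
  by_contra hq0
  have halg : IsAlgebraic Ω X := ⟨q, hq0, hq⟩
  have hint : IsIntegral Ω X := halg.isIntegral
  have hdeg := IsAlgClosed.degree_eq_one_of_irreducible Ω (minpoly.irreducible hint)
  obtain ⟨α, hα⟩ := minpoly.mem_range_of_degree_eq_one Ω X hdeg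
  have hY : Y = 0 := by
    rw [← hS.dX, ← hα]
    exact Derivation.map_algebraMap _ _
  have hs : s = 0 := by
    rw [← hS.cY, hY, map_zero]
  have hp : p = α := by
    rw [← hS.cX, ← hα]
    exact PowerSeries.constantCoeff_C α
  have h1 := hS.dY
  rw [hY, map_zero, mul_zero, ← hα, Polynomial.aeval_algebraMap_apply] at h1
  have h2 : (Polynomial.derivative B).eval α = 0 := by
    have h3 : algebraMap Ω (PowerSeries Ω) (Polynomial.aeval α (Polynomial.derivative B)) =
        algebraMap Ω (PowerSeries Ω) 0 := by
      rw [← h1, map_zero]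
    have h4 := PowerSeries.C_injective (R := Ω) h3
    rwa [Polynomial.coe_aeval_eq_eval] at h4
  rcases hne with h | h
  · exact h hs
  · exact h (by rw [hp]; exact h2)

end Pool.Agent.Helper16.UQ.TRS
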